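import Pool.Agent.T2h17.MG.Stm

/-! # Project MG, task DET: the determinant of the fundamental matrix is `1` -/

set_option autoImplicit false

open PowerSeries

namespace Pool.Agent.T2h17.MG

open Pool.Agent.T2h17.MJ (Fund TJ AJ shp)
open Pool.Agent.Y120.J (T1 Q1)

namespace DET

theorem shp_zero (x₀ : ℚ) : shp x₀ 0 = 0 := by
  unfold shp
  simp

theorem shp_ne {x₀ : ℚ} {P : Polynomial ℤ} (hP : P ≠ 0) : shp x₀ P ≠ 0 := by
  intro h
  unfold shp at h
  have h1 : ((P.map (Int.castRingHom ℚ)).comp (Polynomial.X + Polynomial.C x₀) : Polynomial ℚ) = 0 := by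
    apply Polynomial.coe_injective
    rw [h]
    simp
  have h2 : Polynomial.taylor x₀ (P.map (Int.castRingHom ℚ)) = 0 := by
    rw [Polynomial.taylor_apply]
    exact h1
  have h3 : P.map (Int.castRingHom ℚ) = 0 := by
    apply Polynomial.taylor_injective x₀
    rw [h2, map_zero]
  exact hP ((Polynomial.map_eq_zero_iff (RingHom.injective_int (Int.castRingHom ℚ))).1 h3)

end DET

open DET in
theorem t_det : S_DET := by
  intro x₀ h hF
  have hT : shp x₀ TJ ≠ 0 := by
    refine shp_ne ?_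
    intro h0
    have h1 : TJ.eval 1 = 0 := by rw [h0]; simp
    unfold TJ T1 at h1
    simp at h1
  have a00 : shp x₀ (AJ 0 0) = 0 := shp_zero x₀
  have a11 : shp x₀ (AJ 1 1) = 0 := shp_zero x₀
  have e0 := hF.e0
  have e1 := hF.e1
  have e2 := hF.e2
  have e3 := hF.e3
  rw [a00, zero_mul, zero_add] at e0 e1
  rw [a11, zero_mul, add_zero] at e2 e3
  have hd : shp x₀ TJ * d⁄dX ℚ (h 0 * h 3 - h 1 * h 2) = 0 := by
    rw [map_sub, Derivation.leibniz, Derivation.leibniz]
    simp only [smul_eq_mul]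
    linear_combination h 0 * e3 + h 3 * e0 - h 1 * e2 - h 2 * e1
  have hd0 : d⁄dX ℚ (h 0 * h 3 - h 1 * h 2) = 0 := (mul_eq_zero.1 hd).resolve_left hT
  refine PowerSeries.derivative.ext ?_ ?_
  · rw [hd0]
    simp
  · rw [map_sub, map_mul, map_mul, hF.c0, hF.c1, hF.c2, hF.c3]
    simp

end Pool.Agent.T2h17.MG
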