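import Pool.Agent.T2h17.MG.Stm
import Pool.Agent.Y120.H.Fml
import Pool.Agent.Y113.P.Fin

/-!
Independence of the products of the normal monomials for separated shifts.
-/

set_option autoImplicit false
set_option maxHeartbeats 400000

open PowerSeries Filter Topology

namespace Pool.Agent.T2h17.MG.Lis

open Pool.Agent.Y113 Pool.Agent.Y120.GF Pool.Agent.Y120.GH
open Pool.Agent.Y916.Af (GFam)
open Pool.Agent.T2h17.MG

lemma sf_prod4 (g : ℕ) (f : Fin 4 → ℚ⟦X⟧) (k : Fin 4 → ℕ) :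
    sf g (∏ i, f i ^ k i) = ∏ i, sf g (f i) ^ k i := by
  rw [Fin.prod_univ_four, Fin.prod_univ_four]
  simp only [sf_mul, sf_pow]

lemma cons_elim (h : Fin 4 → ℚ⟦X⟧) (o : Fin 5) :
    ((finSuccEquiv 4 o).elim 1 h : ℚ⟦X⟧) = (Fin.cons (1 : ℚ⟦X⟧) h : Fin 5 → ℚ⟦X⟧) o := by
  refine Fin.cases ?_ (fun i => ?_) o
  · simp
  · simp

lemma exists_wd {Δ : ℕ} (h : Fin 4 → ℚ⟦X⟧) (e : Pool.Agent.Y113.Ex Δ) :
    ∃ w : Fin Δ → Option (Fin 4), (yw h w : ℚ⟦X⟧) = hm h e := by
  obtain ⟨f, hf⟩ := Pool.Agent.Y113.exists_word Δ (fun i => (e.1 i : ℕ)) e.2.1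
  refine ⟨fun j => finSuccEquiv 4 (f j), ?_⟩
  unfold hm
  rw [← hf h]
  unfold yw
  exact Finset.prod_congr rfl fun j _ => cons_elim h (f j)

theorem t_lis : S_LIS := by
  classical
  intro T A h hF
  obtain ⟨hT, hode, hsize, hden, hgal, hqu⟩ := hF
  obtain ⟨q, C, hG⟩ := gsys_of hode hsize hden hgal
  obtain ⟨Ch, hCh⟩ := hsize
  obtain ⟨e, he, M₀, K, Φ, hΦc, hΦe, hΦd⟩ := hqu
  -- the radii
  set τ : ℝ := |K| + |Ch| + 1 with hτd
  have hτ1 : 1 ≤ τ := by
    have := abs_nonneg K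
    have := abs_nonneg Ch
    linarith
  have hτ0 : 0 < τ := by linarith
  have hτe : τ ≤ τ ^ e := le_self_pow₀ hτ1 he
  set τ' : ℝ := τ + 1 with hτ'd
  have hρρ : τ ^ e < τ' ^ e := pow_lt_pow_left₀ (by linarith) hτ0.le he
  obtain ⟨R, hR⟩ := exists_nat_gt (τ ^ e + τ' ^ e)
  refine ⟨R, fun δ hLI N g hg hsep => ?_⟩
  obtain ⟨C', hG'⟩ := gsys_tens (gsys_opt hG) δ
  have hyw : (fun b : Fin δ → Option (Fin 4) => ∏ j, (fun o : Option (Fin 4) => o.elim 1 h) (b j)) = fun b => yw h b := rfl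
  rw [hyw] at hG'
  have hmem1 : ∀ i, cx (h i) ∈ Cw (τ ^ e) := fun i =>
    Cw_mono (by
      have := abs_nonneg K
      linarith) (cx_mem (abs_nonneg Ch) fun m => (hCh i m).trans (by
        rw [← abs_pow]
        exact le_abs_self _))
  have hmem : ∀ b : Fin δ → Option (Fin 4), cx (yw h b : ℚ⟦X⟧) ∈ Cw (τ ^ e) := by
    intro b
    unfold yw
    rw [map_prod]
    refine Subring.prod_mem _ fun j _ => ?_
    rcases b j with _ | i
    · show cx 1 ∈ _
      rw [map_one]
      exact Subring.one_mem _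
    · exact hmem1 i
  set Tc : Polynomial ℂ := T.map (Int.castRingHom ℂ) with hTc
  set Ac : Fin 4 → Fin 4 → Polynomial ℂ := fun i j => (A i j).map (Int.castRingHom ℂ) with hAc
  have hTc0 : Tc ≠ 0 := (Polynomial.map_ne_zero_iff (Int.castRingHom ℂ).injective_int).2 hT
  have hQU : QU he τ Tc (AT (δ := δ) (A1 Ac)) := by
    refine qu_tens he δ (qu_one he ⟨M₀, Φ, fun i j k => mem_Cw_of_bound ?_ (hΦc i j k), hΦe, hΦd⟩)
    have := abs_nonneg Ch
    linarith
  -- the differential equation of the products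
  have hodeC : ∀ i, (Tc : PowerSeries ℂ) * PowerSeries.derivative ℂ (cx (h i)) = ∑ j, (Ac i j : PowerSeries ℂ) * cx (h j) := by
    intro i
    have h1 := congrArg cx (hode i)
    rw [map_mul, map_sum, cx_der, cx_ps] at h1
    rw [h1]
    refine Finset.sum_congr rfl fun j _ => ?_
    rw [map_mul, cx_ps]
  have hodeT : ∀ b : Fin δ → Option (Fin 4), (Tc : PowerSeries ℂ) * PowerSeries.derivative ℂ (cx (yw h b)) =
      ∑ b', ((AT (δ := δ) (A1 Ac) b b' : Polynomial ℂ) : PowerSeries ℂ) * cx (yw h b') := by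
    intro b
    have h1 := tens_der (δ := δ) (fun f : PowerSeries ℂ => PowerSeries.derivative ℂ f) (Derivation.map_one_eq_zero _)
      (fun f g => by
        rw [Derivation.leibniz]
        rfl) (Tc : PowerSeries ℂ) 0
      (fun i l : Option (Fin 4) => ((A1 Ac i l : Polynomial ℂ) : PowerSeries ℂ))
      (fun _ o => cx (o.elim 1 h)) (fun j o => by
        rw [zero_mul, zero_add, Fintype.sum_option]
        rcases o with _ | i
        · show _ * PowerSeries.derivative ℂ (cx 1) = ((0 : Polynomial ℂ) : PowerSeries ℂ) * _ +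
            ∑ j, ((0 : Polynomial ℂ) : PowerSeries ℂ) * _
          rw [map_one, Derivation.map_one_eq_zero]
          simp
        · show _ = ((0 : Polynomial ℂ) : PowerSeries ℂ) * _ + ∑ j, (Ac i j : PowerSeries ℂ) * cx (h j)
          rw [← hodeC i]
          simp) b
    have h2 : ∀ b : Fin δ → Option (Fin 4), cx (yw h b) = ∏ j, cx ((b j).elim 1 h) := fun b => map_prod _ _ _
    rw [h2 b]
    refine h1.trans ?_
    rw [mul_zero, zero_mul, zero_add]
    refine Finset.sum_congr rfl fun b' _ => ?_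
    rw [h2 b']
    congr 1
    let f : Polynomial ℂ →+ PowerSeries ℂ := (Polynomial.coeToPowerSeries.ringHom (R := ℂ)).toAddMonoidHom
    exact (AT_map f (A1 Ac) b b').symm
  -- the words of the normal monomials
  choose wd hwd using fun e : Pool.Agent.Y113.Ex δ => exists_wd h e
  have hinj : Function.Injective wd := by
    intro e e' hee
    apply hLI.injective
    show hm h e = hm h e'
    rw [← hwd, ← hwd, hee]
  let B : Set (Fin δ → Option (Fin 4)) := Set.range wd
  let j : Pool.Agent.Y113.Ex δ ≃ B := Equiv.ofInjective wd hinj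
  have hLIB : LinearIndependent (Polynomial ℚ) (fun b : B => (yw h b.1 : ℚ⟦X⟧)) := by
    have h1 := hLI.comp j.symm j.symm.injective
    have h2 : ((fun e : Pool.Agent.Y113.Ex δ => hm h e) ∘ j.symm) = fun b : B => (yw h b.1 : ℚ⟦X⟧) := by
      funext b
      show hm h (j.symm b) = _
      rw [← hwd]
      congr 1
      exact congrArg Subtype.val (j.apply_symm_apply b)
    rwa [h2] at h1
  have hdisc : Disc (τ ^ e) (τ' ^ e) fun b : B => cx (yw h b.1) :=
    disc_of_qu he hτ0 (by linarith) (fun b => cx (yw h b)) hmem Tc hTc0 _ hodeT hQU B (by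
      intro G hG
      exact li_cx (κ := B) hLIB G hG)
  obtain ⟨E, hE⟩ := gsys_shift hG'
  have hmain := li_shift (ρ := τ ^ e) (ρ' := τ' ^ e) (C := C') (y := fun β : B => yw h β.1) (by positivity) hρρ
    (by have := hG'.one_le; linarith) (fun β => hmem _) hdisc (fun β m => hG'.size β.1 m)
    (fun g => ⟨((g : ℝ) + 2) ^ E, by positivity, fun β m => (hE g).size β.1 m⟩) (R := (R : ℝ)) hR 1 N g
    (fun l => by exact_mod_cast hg l) hsep
  have hc := hmain.comp (fun (b : Fin N → Pool.Agent.Y113.Ex δ) (l : Fin N) => ((j (b l), (0 : Fin 1)) : B × Fin 1)) (by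
    intro b b' hbb
    funext l
    have h1 := congrFun hbb l
    have h2 : j (b l) = j (b' l) := congrArg Prod.fst h1
    exact j.injective h2)
  have hfun : ((fun b : Fin N → B × Fin 1 => ∏ l, Fg 1 (fun β : B => (yw h β.1 : ℚ⟦X⟧)) (g l) (b l)) ∘
      fun (b : Fin N → Pool.Agent.Y113.Ex δ) (l : Fin N) => ((j (b l), (0 : Fin 1)) : B × Fin 1)) =
      fun b : Fin N → Pool.Agent.Y113.Ex δ => ∏ l, mo h (g l) (b l) := by
    funext b
    show ∏ l, Fg 1 (fun β : B => (yw h β.1 : ℚ⟦X⟧)) (g l) (j (b l), (0 : Fin 1)) = _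
    refine Finset.prod_congr rfl fun l _ => ?_
    show sf (g l) (yw h (wd (b l))) * yQ (g l) ((0 : Fin 1) : ℕ) = _
    have h1 : yQ (g l) ((0 : Fin 1) : ℕ) = 1 := yQ_nil (g l)
    rw [h1, mul_one, hwd]
    unfold hm mo
    exact sf_prod4 (g l) h _
  rw [hfun] at hc
  exact hc

end Pool.Agent.T2h17.MG.Lis
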