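import Pool.Agent.T2h17.MG.Stm
import Pool.Agent.Y113.P.Fin
import Pool.Agent.R351.GD.S.Mul
import Pool.Agent.R351.GD.L.Mon
import Pool.Agent.Y120.H.GS1
import Pool.Agent.Y120.H.Shift

/-!
The normal monomials of the shifted functions form a G-system.
-/

set_option autoImplicit false

open PowerSeries Filter Topology

namespace Pool.Agent.T2h17.MG

open Pool.Agent.Y113 (Ex GSys ps ev exists_word word_exp)
open Pool.Agent.Y120.GH hiding Ex
open Pool.Agent.Y120.GF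
open Pool.Agent.Y916.Al (evc)
open Pool.Agent.Y916.Af (GFam Vc)
open Pool.Agent.R351.GD (PB words_gen quot2)
open Pool.Agent.T2h17.MJ (Fund TJ AJ)

/-- the normal monomials in four functions -/
theorem mon_gen (hred : S_RED) {q : ℕ} {C : ℝ} {Tg : Polynomial ℤ} (z : Fin 4 → ℚ⟦X⟧)
    (h : GSys q C Tg (Fin.cons (1 : ℚ⟦X⟧) z : Fin 5 → ℚ⟦X⟧)) (hz : z 0 * z 3 - z 1 * z 2 = 1) (Δ : ℕ) :
    GSys q ((2 * C) ^ ((q + 6) * Δ + 1)) Tg (fun e : Ex Δ => ∏ i, z i ^ (e.1 i : ℕ)) := by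
  have hC := h.one_le
  have h1 := words_gen h Δ
  have hM : ∀ e : Ex Δ, ∃ f : Fin Δ → Fin 5, ∏ i, (Fin.cons (1 : ℚ⟦X⟧) z : Fin 5 → ℚ⟦X⟧) (f i) =
      ∏ i, z i ^ (e.1 i : ℕ) := by
    intro e
    obtain ⟨f, hf⟩ := exists_word Δ (fun i => (e.1 i : ℕ)) e.sum_le
    exact ⟨f, hf z⟩
  choose fM hfM using hM
  have hM' : ∀ f : Fin Δ → Fin 5, ∃ co : Ex Δ → ℤ, (∀ t, |((co t : ℤ) : ℝ)| ≤ 2 ^ Δ) ∧
      ∏ i, (Fin.cons (1 : ℚ⟦X⟧) z : Fin 5 → ℚ⟦X⟧) (f i) =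
        ∑ t : Ex Δ, (co t : ℚ⟦X⟧) * ∏ i, z i ^ (t.1 i : ℕ) := by
    intro f
    obtain ⟨e, he, he'⟩ := word_exp Δ f
    rw [Fin.sum_univ_four] at he
    obtain ⟨co, hc, hc'⟩ := hred Δ (e 0) (e 1) (e 2) (e 3) he
    refine ⟨co, fun t => (hc t).trans (pow_le_pow_right₀ (by norm_num) (by omega)), ?_⟩
    rw [he' z, Fin.prod_univ_four]
    refine (hc' (z 0) (z 1) (z 2) (z 3) hz).trans ?_
    refine Finset.sum_congr rfl fun t _ => ?_
    rw [Fin.prod_univ_four]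
  choose co hco hco' using hM'
  have h2 := quot2 h1 fM co (fun e => (hfM e).symm) hco' (2 ^ Δ) (2 ^ (3 * Δ)) hco (one_le_pow₀ (by norm_num))
    (one_le_pow₀ (by norm_num)) (by
      rw [Fintype.card_fun, Fintype.card_fin, Fintype.card_fin]
      push_cast
      rw [pow_mul]
      exact pow_le_pow_left₀ (by norm_num) (by norm_num) _)
  refine h2.mono le_rfl ?_
  have h22 : (2 : ℝ) ≤ 2 * C := by linarith
  have h21 : (1 : ℝ) ≤ 2 * C := by linarith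
  have hCC : C ≤ 2 * C := by linarith
  calc (2 : ℝ) ^ (3 * Δ) * 2 ^ Δ * ((2 ^ (q + 1) * C) ^ Δ * C)
      ≤ (2 * C) ^ (3 * Δ) * (2 * C) ^ Δ * (((2 * C) ^ (q + 1) * (2 * C)) ^ Δ * (2 * C)) := by
        gcongr
    _ = (2 * C) ^ ((q + 6) * Δ + 1) := by
        rw [← pow_succ, ← pow_mul, ← pow_add, ← pow_succ, ← pow_add]
        congr 1
        ring

theorem sf_one (g : ℕ) : sf g (1 : ℚ⟦X⟧) = 1 := by
  have h := sf_nat g 1
  simpa using h

theorem sf_det (g : ℕ) (h : Fin 4 → ℚ⟦X⟧) (hdet : h 0 * h 3 - h 1 * h 2 = 1) :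
    sf g (h 0) * sf g (h 3) - sf g (h 1) * sf g (h 2) = 1 := by
  have e1 : h 0 * h 3 = 1 + h 1 * h 2 := by linear_combination hdet
  have e2 : sf g (1 + h 1 * h 2) = 1 + sf g (h 1) * sf g (h 2) := by
    have hs := Pool.Agent.Y120.GF.sh_sub g
    simp only [sf, ← coe_substAlgHom hs]
    rw [map_add, map_mul, map_one]
  rw [← sf_mul, e1, e2]
  ring

theorem base_le (G g : ℕ) : (((G * g : ℕ) : ℝ) + 2) ≤ ((g : ℝ) + 2) ^ (G + 1) := by
  have hg : (0 : ℝ) ≤ g := Nat.cast_nonneg g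
  have h1 : ((G : ℝ) + 1) ≤ 2 ^ G := by
    have := Nat.lt_two_pow_self (n := G)
    exact_mod_cast this
  have h2 : (2 : ℝ) ^ G ≤ ((g : ℝ) + 2) ^ G := pow_le_pow_left₀ (by norm_num) (by linarith) G
  have h3 : ((G : ℝ) + 1) * ((g : ℝ) + 2) ≤ ((g : ℝ) + 2) ^ (G + 1) := by
    rw [pow_succ]
    exact mul_le_mul_of_nonneg_right (h1.trans h2) (by linarith)
  push_cast
  have hG : (0 : ℝ) ≤ G := Nat.cast_nonneg G
  nlinarith

theorem t_mon : S_MON := by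
  intro hred T A h hf hdet G hG
  obtain ⟨q, C, hsys⟩ := gsys_of hf.hode hf.hsize hf.hden hf.hgal
  obtain ⟨E, hE⟩ := gsys_shift (gsys_opt hsys)
  obtain ⟨c, hc⟩ := no_roots hf.hT
  refine ⟨q + 2, ((G + 1) * E + 1) * (q + 9), c, fun g => Pg (G * g) ^ 2 * Hm (G * g) q T, ?_, ?_⟩
  · intro Δ g
    have hg : (0 : ℝ) ≤ g := Nat.cast_nonneg g
    have hg1 : (1 : ℝ) ≤ (g : ℝ) + 2 := by linarith
    have h1 := (hE (G * g)).reindex (finSuccEquiv 4)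
    have h2 : (fun j : Fin 5 => sf (G * g) (((finSuccEquiv 4) j).elim (1 : ℚ⟦X⟧) h)) =
        (Fin.cons (1 : ℚ⟦X⟧) (fun i => sf (G * g) (h i)) : Fin 5 → ℚ⟦X⟧) := by
      funext j
      refine Fin.cases ?_ (fun i => ?_) j
      · rw [finSuccEquiv_zero, Fin.cons_zero]
        exact sf_one _
      · rw [finSuccEquiv_succ, Fin.cons_succ]
        rfl
    have h3 : GSys (q + 2) (((g : ℝ) + 2) ^ ((G + 1) * E)) (Pg (G * g) ^ 2 * Hm (G * g) q T)
        (Fin.cons (1 : ℚ⟦X⟧) (fun i => sf (G * g) (h i)) : Fin 5 → ℚ⟦X⟧) := by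
      rw [← h2]
      refine h1.mono le_rfl ?_
      rw [pow_mul]
      exact pow_le_pow_left₀ (by positivity) (base_le G g) E
    have h4 := mon_gen hred (fun i => sf (G * g) (h i)) h3 (sf_det (G * g) h hdet) Δ
    refine h4.mono le_rfl ?_
    have h5 : 2 * ((g : ℝ) + 2) ^ ((G + 1) * E) ≤ ((g : ℝ) + 2) ^ ((G + 1) * E + 1) := by
      rw [pow_succ, mul_comm]
      exact mul_le_mul_of_nonneg_left (by linarith) (by positivity)
    calc (2 * ((g : ℝ) + 2) ^ ((G + 1) * E)) ^ ((q + 2 + 6) * Δ + 1)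
        ≤ (((g : ℝ) + 2) ^ ((G + 1) * E + 1)) ^ ((q + 2 + 6) * Δ + 1) :=
          pow_le_pow_left₀ (by positivity) h5 _
      _ = ((g : ℝ) + 2) ^ (((G + 1) * E + 1) * ((q + 2 + 6) * Δ + 1)) := by rw [← pow_mul]
      _ ≤ ((g : ℝ) + 2) ^ (((G + 1) * E + 1) * (q + 9) * (Δ + 1)) := by
          refine pow_le_pow_right₀ hg1 ?_
          rw [mul_assoc]
          refine Nat.mul_le_mul_left _ ?_
          nlinarith
  · intro g t ht
    have hg : (0 : ℝ) ≤ g := Nat.cast_nonneg g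
    have hG0 : (0 : ℝ) ≤ G := Nat.cast_nonneg G
    have hc0 : (0 : ℝ) ≤ c := Nat.cast_nonneg c
    have hGg : (0 : ℝ) ≤ (G : ℝ) * g := mul_nonneg hG0 hg
    have ht0 : (0 : ℝ) < t := by linarith
    have h1 : (1 : ℝ) - ((G * g : ℕ) : ℝ) * (1 / t) ≠ 0 := by
      have : ((G * g : ℕ) : ℝ) * (1 / t) < 1 := by
        rw [mul_one_div, div_lt_one ht0]
        push_cast
        linarith
      linarith
    show Polynomial.aeval (1 / t) (Pg (G * g) ^ 2 * Hm (G * g) q T) ≠ 0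
    rw [map_mul, map_pow, aeval_Pg, aeval_Hm (G * g) hsys.degT h1]
    refine mul_ne_zero (pow_ne_zero _ h1) (mul_ne_zero (pow_ne_zero _ h1) ?_)
    have h2 : (1 : ℝ) / t / (1 - ((G * g : ℕ) : ℝ) * (1 / t)) = 1 / (t - ((G * g : ℕ) : ℝ)) := by
      have h4 : (1 : ℝ) - ((G * g : ℕ) : ℝ) * (1 / t) = (t - ((G * g : ℕ) : ℝ)) / t := by field_simp
      have h3 : t - ((G * g : ℕ) : ℝ) ≠ 0 := by
        push_cast
        linarith
      rw [h4]
      field_simp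
    rw [h2]
    refine hc _ ?_
    push_cast
    linarith

end Pool.Agent.T2h17.MG
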