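import Pool.Agent.T2h17.MJ.Stm
import Pool.Agent.R351.GD.PB
import Pool.Agent.Y120.H.FamR

/-!
Relations of growing degree near a point with rational invariant: statements.
-/

set_option autoImplicit false

open PowerSeries Filter Topology

namespace Pool.Agent.T2h17.MG

open Pool.Agent.Y113 (Ex GSys ps ev)
open Pool.Agent.Y120.GH (sf)
open Pool.Agent.Y916.Al (evc)
open Pool.Agent.Y916.Af (GFam Vc)
open Pool.Agent.R351.GD (PB)
open Pool.Agent.T2h17.MJ (Fund TJ AJ)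

/-- the normal monomial (`h₀` or `h₃` does not occur) -/
noncomputable def hm (h : Fin 4 → ℚ⟦X⟧) {Δ : ℕ} (e : Ex Δ) : ℚ⟦X⟧ := ∏ i, h i ^ (e.1 i : ℕ)

/-- the normal monomial in the functions which are shifted by `g` -/
noncomputable def mo (h : Fin 4 → ℚ⟦X⟧) (g : ℕ) {Δ : ℕ} (e : Ex Δ) : ℚ⟦X⟧ := ∏ i, sf g (h i) ^ (e.1 i : ℕ)

/-- (RED) reduction of the monomials by `u x = v w + 1`.
Copy of `Pool.Agent.Y113.reduce` (Pool/Agent/Y113/P/Fin.lean:147), where the relation is `u x - v w = -1`; only the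
sign changes: the coefficients are `c1 s + c2 s` instead of `c1 s - c2 s`. -/
def S_RED : Prop := ∀ Δ a b c d : ℕ, a + b + c + d ≤ Δ → ∃ co : Ex Δ → ℤ, (∀ s, |((co s : ℤ) : ℝ)| ≤ 2 ^ a) ∧
    ∀ u v w x : ℚ⟦X⟧, u * x - v * w = 1 → u ^ a * v ^ b * w ^ c * x ^ d =
      ∑ s : Ex Δ, (co s : ℚ⟦X⟧) * (u ^ (s.1 0 : ℕ) * v ^ (s.1 1 : ℕ) * w ^ (s.1 2 : ℕ) * x ^ (s.1 3 : ℕ))

/-- (DET) the determinant of the fundamental matrix is `1`: with `T = shp x₀ TJ ≠ 0` (as `TJ ≠ 0`) and the equations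
`e0, …, e3` of `Fund` (`AJ` has diagonal `0`) one gets `T * (h₀ h₃ - h₁ h₂)' = 0`, so the derivative is `0` and the
power series is constant (characteristic 0), with constant coefficient `1`. -/
def S_DET : Prop := ∀ (x₀ : ℚ) (h : Fin 4 → ℚ⟦X⟧), Fund TJ AJ x₀ h → h 0 * h 3 - h 1 * h 2 = 1

/-- (NLI) the normal monomials are independent over `ℚ[x]`.
Let `∑ G_e hm h e = 0`, `R = ∑ C (G_e) ∏ X_i ^ e_i`; `aeval h R = 0`, so for all `x` and `y` on the quadric with `y 0 ≠ 0`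
one has `∑ G_e(x) ∏ y_i ^ e_i = 0`. Put `y = (a, b, c, (1 + b c) / a)`, `a ≠ 0`, and multiply by `a ^ Δ`: a polynomial in
`a` which vanishes for `a ≠ 0`, with coefficient of `a ^ d` equal to `∑_{Δ + e₀ - e₃ = d} G_e(x) b^{e₁} c^{e₂} (1 + b c)^{e₃}`;
as `e₀ = 0` or `e₃ = 0` the number `d` determines `e₀` and `e₃`, so for `1 + b c ≠ 0` one can divide by
`(1 + b c)^{e₃}`; the polynomial `∑ G_e(x) X^{e₁} Y^{e₂}` (sum over the `e` with given `d`) times `1 + X Y` vanishes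
everywhere, so it is zero, and `(e₁, e₂)` determines `e`. Hence `G_e(x) = 0` for all `x`. -/
def S_NLI : Prop := ∀ h : Fin 4 → ℚ⟦X⟧,
  (∀ (x : ℂ) (y : Fin 4 → ℂ), y 0 ≠ 0 → y 0 * y 3 - y 2 * y 1 = 1 → y ∈ Vc h x) →
  ∀ Δ : ℕ, LinearIndependent (Polynomial ℚ) (fun e : Ex Δ => hm h e)

/-- (LIS) independence of the products of the normal monomials for separated shifts.
This is the middle part of `Pool.Agent.Y547.AF.famC` (Pool/Agent/Y547/AF/Fam.lean:136-268): same radii `τ`, `τ'`, `R`; but with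
`B` the range of an injection `word : Ex Δ → (Fin Δ → Option (Fin 4))` with `yw h (word e) = hm h e` (compare
`Pool.Agent.Y113.exists_word` in Y113/P/Fin.lean) instead of the set `B` of `max_li'`; `disc_of_qu` (Y120/H/Tens.lean:369) with
this `B` gives `hdisc`, then `li_shift` (Y120/H/Ind.lean:20) with `n = 1` (`Fg 1 y g (b, 0) = sf g (y b)`, `yQ_nil`), and
compose with the injection `(Fin N → Ex Δ) → (Fin N → B × Fin 1)`; `sf` is multiplicative (`sf_mul`, `sf_pow`). -/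
def S_LIS : Prop := ∀ (T : Polynomial ℤ) (A : Fin 4 → Fin 4 → Polynomial ℤ) (h : Fin 4 → ℚ⟦X⟧), GFam T A h →
  ∃ R : ℕ, ∀ Δ : ℕ, LinearIndependent (Polynomial ℚ) (fun e : Ex Δ => hm h e) →
  ∀ (N : ℕ) (g : Fin N → ℕ), (∀ l, R ≤ g l) → (∀ l l', l ≠ l' → (R : ℝ) ≤ |(g l : ℝ) - g l'|) →
  LinearIndependent (Polynomial ℚ) (fun b : Fin N → Ex Δ => ∏ l, mo h (g l) (b l))

/-- (MON) the normal monomials of the shifted functions form a G-system, with a constant which is exponential in `Δ` only.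
`gsys_of` and `gsys_opt` (Y120/H/GS1.lean:172, 317) give a G-system of `1, h_i` with constant `C`; `gsys_shift`
(Y120/H/Shift.lean:166) the shifted one, for `G * g` the constant is `((G g + 2)^E) ≤ (g + 2)^((G + 1) E)`; reindex by
`finSuccEquiv 4` to get `Fin.cons 1 (fun i => sf (G * g) (h i)) : Fin 5 → _` (`sf g 1 = 1`: `sf_nat`). Then copy the proof of
`Pool.Agent.R351.GD.monJ_c` (Pool/Agent/R351/GD/J/Nrj.lean:22: `words_gen`, `exists_word`, `word_exp`, `reduce`, `quot2`) with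
`S_RED` instead of `reduce` (`sf` preserves `h 0 * h 3 - h 1 * h 2 = 1`). `Tg g = Pg (G g) ^ 2 * Hm (G g) q T`;
the last clause from `Tg_neC` (Pool/Agent/Y547/AF/Cx.lean:135), as `Tg` of Y120/H/FamR.lean is a multiple of it. -/
def S_MON : Prop := S_RED → ∀ (T : Polynomial ℤ) (A : Fin 4 → Fin 4 → Polynomial ℤ) (h : Fin 4 → ℚ⟦X⟧), GFam T A h →
  h 0 * h 3 - h 1 * h 2 = 1 → ∀ G : ℕ, 1 ≤ G → ∃ (q₀ E₀ c : ℕ) (Tg : ℕ → Polynomial ℤ),
    (∀ Δ g : ℕ, GSys q₀ (((g : ℝ) + 2) ^ (E₀ * (Δ + 1))) (Tg g) (fun e : Ex Δ => mo h (G * g) e)) ∧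
    ∀ (g : ℕ) (t : ℝ), (G * g : ℝ) + c < t → Polynomial.aeval (1 / t) (Tg g) ≠ 0

/-- no relation of degree `≤ Δ` between the numbers of `N` shifts, with an exponent polynomial in `Δ` -/
def NoRelPB (val : ℕ → ℕ → Fin 3 → ℂ) : Prop := ∀ N : ℕ, ∃ E : ℕ → ℕ, PB E ∧
  ∀ (Δ H t : ℕ), (H + 2) ^ E Δ ≤ t → ∀ g : Fin N → ℕ, Function.Injective g → (∀ i, 1 ≤ g i ∧ g i ≤ H) →
  ∀ P : MvPolynomial (Fin N × Fin 3) ℚ, P.totalDegree ≤ Δ →
  MvPolynomial.aeval (fun p : Fin N × Fin 3 => val t (g p.1) p.2) P = 0 → P = 0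

/-- (NRJ) no relations of growing degree between the values of `h₀, h₁, h₂` for distinct shifts.
Copy of `Pool.Agent.R351.GD.nrjE` (Pool/Agent/R351/GD/J/Nrj.lean:68) with `S_MON` for `monJ_c` and `S_LIS` for `hl` (`G0 = R + 1`):
`multi_exp`, `gof_exp Pool.Agent.Y141.GF.t_shid Pool.Agent.Y141.GF.t_loc q`. The values: `evc (1 / (t - G g)) (h i)` is
`evc (1 / t) (sf (G g) (h i))` by `evc_sf` (Pool/Agent/Y547/AF/Cx.lean:27), and this is the real number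
`ev t (sf (G g) (h i))`; `Cv` of the shifted functions from the sizes of `gsys_shift` or of the G-system of `S_MON`. -/
def S_NRJ : Prop := S_RED → S_MON → S_LIS → ∀ (T : Polynomial ℤ) (A : Fin 4 → Fin 4 → Polynomial ℤ) (h : Fin 4 → ℚ⟦X⟧),
  GFam T A h → h 0 * h 3 - h 1 * h 2 = 1 →
  (∀ Δ : ℕ, LinearIndependent (Polynomial ℚ) (fun e : Ex Δ => hm h e)) →
  ∃ G0 : ℕ, 1 ≤ G0 ∧ ∀ G : ℕ, G0 ≤ G →
    NoRelPB fun t g i => evc (1 / ((t : ℂ) - ((G * g : ℕ) : ℂ))) (h i.castSucc)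

/-- (WF) windows for free coordinates, over constants `u` (fixed) and `w` (arbitrary): adapt
`Pool.Agent.R351.GD.absFree_exp` (Pool/Agent/R351/GD/J/Nrj.lean:170) with `awh_exp` (Pool/Agent/R351/GD/P/AH.lean:18); the
constants and `Dom` as in `windowN` (Pool/Agent/Y916/Af/Nolog.lean:108-140: `Om.exists_base`, `Om.Dom.exists`, `Dom.of`). -/
def S_WF : Prop := ∀ val : ℕ → ℕ → Fin 3 → ℂ, NoRelPB val → ∀ (υ : Type) [Fintype υ] (u : υ → ℂ) (k q : ℕ),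
  ∃ E : ℕ → ℕ, PB E ∧ ∀ δ H t : ℕ, (H + 2) ^ E δ ≤ t → ∀ w : Fin q → ℂ, ∃ S : Finset ℕ,
    (S.card : Cardinal) ≤ q + Algebra.trdeg ℚ (IntermediateField.adjoin ℚ (Set.range u)) ∧
    ∀ g : Fin k → ℕ, Function.Injective g → (∀ i, 1 ≤ g i ∧ g i ≤ H ∧ g i ∉ S) →
    ∀ K : IntermediateField ℚ ℂ, FiniteDimensional ℚ K → Module.finrank ℚ K ≤ δ →
    ∀ P : MvPolynomial ((υ ⊕ Fin q) ⊕ Fin k × Fin 3) K, P.totalDegree ≤ δ →
    MvPolynomial.aeval (Sum.elim (Sum.elim u w) fun a : Fin k × Fin 3 => val t (g a.1) a.2) P = 0 →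
    ∀ y, MvPolynomial.aeval (Sum.elim (Sum.elim u w) y) P = 0

end Pool.Agent.T2h17.MG
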