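import Mathlib
import Pool.Agent.T2h17.MG.Stm

/-!
# NLI: independence of the normal monomials
-/

set_option autoImplicit false

open PowerSeries

namespace Pool.Agent.T2h17.MG.Nli

open Pool.Agent.Y113 (Ex)
open Pool.Agent.Y916.Af (Vc)
open Pool.Agent.T2h17.MG (hm)

/-- the exponent of the lowest term -/
def low {Δ : ℕ} (e : Ex Δ) : ℕ :=
  (Δ + e.1 0 - e.1 3) + (2 * Δ + 1) * (e.1 1 + (2 * Δ + 1) * e.1 2)

theorem low_inj {Δ : ℕ} : Function.Injective (low (Δ := Δ)) := by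
  intro e e' h
  unfold low at h
  have b0 := (e.1 0).isLt
  have b1 := (e.1 1).isLt
  have b2 := (e.1 2).isLt
  have b3 := (e.1 3).isLt
  have c0 := (e'.1 0).isLt
  have c1 := (e'.1 1).isLt
  have c2 := (e'.1 2).isLt
  have c3 := (e'.1 3).isLt
  have hB : 0 < 2 * Δ + 1 := by omega
  have key : ∀ u v u' v' : ℕ, u < 2 * Δ + 1 → u' < 2 * Δ + 1 →
      u + (2 * Δ + 1) * v = u' + (2 * Δ + 1) * v' → u = u' ∧ v = v' := by
    intro u v u' v' hu hu' he
    have h1 : (u + (2 * Δ + 1) * v) % (2 * Δ + 1) = u := by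
      rw [Nat.add_mul_mod_self_left, Nat.mod_eq_of_lt hu]
    have h2 : (u' + (2 * Δ + 1) * v') % (2 * Δ + 1) = u' := by
      rw [Nat.add_mul_mod_self_left, Nat.mod_eq_of_lt hu']
    have h3 : u = u' := by rw [← h1, ← h2, he]
    refine ⟨h3, ?_⟩
    rw [h3] at he
    exact Nat.eq_of_mul_eq_mul_left hB (Nat.add_left_cancel he)
  obtain ⟨k1, k2⟩ := key _ _ _ _ (by omega) (by omega) h
  obtain ⟨k3, k4⟩ := key _ _ _ _ (by omega) (by omega) k2
  have z : (e.1 0 : ℕ) = 0 ∨ (e.1 3 : ℕ) = 0 := by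
    rcases e.2.2 with hz | hz
    · left; rw [hz]; rfl
    · right; rw [hz]; rfl
  have z' : (e'.1 0 : ℕ) = 0 ∨ (e'.1 3 : ℕ) = 0 := by
    rcases e'.2.2 with hz | hz
    · left; rw [hz]; rfl
    · right; rw [hz]; rfl
  apply Subtype.ext
  funext i
  apply Fin.ext
  fin_cases i
  · show (e.1 0 : ℕ) = (e'.1 0 : ℕ)
    omega
  · exact k3
  · exact k4
  · show (e.1 3 : ℕ) = (e'.1 3 : ℕ)
    omega

/-- the exponent of `t` in the product of the second and the third coordinate -/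
def bb (Δ : ℕ) : ℕ := (2 * Δ + 1) + (2 * Δ + 1) * (2 * Δ + 1)

theorem coeff_zero_of {Δ : ℕ} (c : Ex Δ → ℂ)
    (hc : ∀ y : Fin 4 → ℂ, y 0 ≠ 0 → y 0 * y 3 - y 2 * y 1 = 1 →
      ∑ e : Ex Δ, c e * ∏ i, y i ^ (e.1 i : ℕ) = 0) : ∀ e, c e = 0 := by
  classical
  let P : Polynomial ℂ := ∑ e : Ex Δ,
    (Polynomial.C (c e) * (1 + Polynomial.X ^ bb Δ) ^ (e.1 3 : ℕ)) * Polynomial.X ^ low e
  have hev : ∀ t : ℂ, t ≠ 0 → P.eval t = 0 := by
    intro t ht
    have h1 := hc ![t, t ^ (2 * Δ + 1), t ^ ((2 * Δ + 1) * (2 * Δ + 1)), (1 + t ^ bb Δ) / t] ht (by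
      show t * ((1 + t ^ bb Δ) / t) - t ^ ((2 * Δ + 1) * (2 * Δ + 1)) * t ^ (2 * Δ + 1) = 1
      rw [mul_div_cancel₀ _ ht, ← pow_add, add_comm ((2 * Δ + 1) * (2 * Δ + 1))]
      unfold bb
      ring)
    have h2 : P.eval t = t ^ Δ * ∑ e : Ex Δ, c e * ∏ i, (![t, t ^ (2 * Δ + 1),
        t ^ ((2 * Δ + 1) * (2 * Δ + 1)), (1 + t ^ bb Δ) / t] : Fin 4 → ℂ) i ^ (e.1 i : ℕ) := by
      rw [Finset.mul_sum, Polynomial.eval_finsetSum]
      refine Finset.sum_congr rfl fun e _ => ?_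
      rw [Fin.prod_univ_four]
      simp only [Polynomial.eval_mul, Polynomial.eval_C, Polynomial.eval_pow, Polynomial.eval_add,
        Polynomial.eval_one, Polynomial.eval_X]
      show c e * (1 + t ^ bb Δ) ^ (e.1 3 : ℕ) * t ^ low e = t ^ Δ * (c e * (t ^ (e.1 0 : ℕ) *
        (t ^ (2 * Δ + 1)) ^ (e.1 1 : ℕ) * (t ^ ((2 * Δ + 1) * (2 * Δ + 1))) ^ (e.1 2 : ℕ) *
        ((1 + t ^ bb Δ) / t) ^ (e.1 3 : ℕ)))
      have h3 : (e.1 3 : ℕ) ≤ Δ := by have := (e.1 3).isLt; omega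
      have h4 : t ^ low e * t ^ (e.1 3 : ℕ) = t ^ Δ * (t ^ (e.1 0 : ℕ) *
          (t ^ (2 * Δ + 1)) ^ (e.1 1 : ℕ) * (t ^ ((2 * Δ + 1) * (2 * Δ + 1))) ^ (e.1 2 : ℕ)) := by
        rw [← pow_add, ← pow_mul, ← pow_mul, ← pow_add, ← pow_add, ← pow_add]
        congr 1
        unfold low
        have h5 : Δ + (e.1 0 : ℕ) - (e.1 3 : ℕ) + (e.1 3 : ℕ) = Δ + (e.1 0 : ℕ) := by omega
        calc Δ + (e.1 0 : ℕ) - (e.1 3 : ℕ) + (2 * Δ + 1) * ((e.1 1 : ℕ) + (2 * Δ + 1) * (e.1 2 : ℕ))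
              + (e.1 3 : ℕ)
            = (Δ + (e.1 0 : ℕ) - (e.1 3 : ℕ) + (e.1 3 : ℕ)) +
              (2 * Δ + 1) * ((e.1 1 : ℕ) + (2 * Δ + 1) * (e.1 2 : ℕ)) := by ring
          _ = _ := by rw [h5]; ring
      have h6 : t ^ (e.1 3 : ℕ) ≠ 0 := pow_ne_zero _ ht
      rw [div_pow]
      field_simp
      linear_combination (c e * (1 + t ^ bb Δ) ^ (e.1 3 : ℕ)) * h4
    rw [h2, h1, mul_zero]
  have hP : P = 0 := by
    have h1 : Polynomial.X * P = 0 := by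
      refine Polynomial.funext fun t => ?_
      rw [Polynomial.eval_mul, Polynomial.eval_X, Polynomial.eval_zero]
      by_cases ht : t = 0
      · rw [ht, zero_mul]
      · rw [hev t ht, mul_zero]
    exact (mul_eq_zero.1 h1).resolve_left Polynomial.X_ne_zero
  by_contra hne
  push Not at hne
  obtain ⟨e₁, he₁⟩ := hne
  obtain ⟨e₀, he₀, hmin⟩ := (Finset.univ.filter fun e : Ex Δ => c e ≠ 0).exists_min_image low
    ⟨e₁, Finset.mem_filter.2 ⟨Finset.mem_univ _, he₁⟩⟩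
  rw [Finset.mem_filter] at he₀
  have h1 : P.coeff (low e₀) = c e₀ := by
    rw [Polynomial.finsetSum_coeff, Finset.sum_eq_single e₀]
    · rw [Polynomial.coeff_mul_X_pow', if_pos le_rfl, Nat.sub_self,
        Polynomial.coeff_zero_eq_eval_zero]
      simp [bb]
    · intro e _ hne
      rw [Polynomial.coeff_mul_X_pow']
      by_cases h0 : c e = 0
      · rw [h0]
        simp
      · have h2 := hmin e (Finset.mem_filter.2 ⟨Finset.mem_univ _, h0⟩)
        have h3 : low e ≠ low e₀ := fun h => hne (low_inj h)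
        rw [if_neg (by omega)]
    · intro h
      exact absurd (Finset.mem_univ _) h
  rw [hP, Polynomial.coeff_zero] at h1
  exact he₀.2 h1.symm

theorem main (h : Fin 4 → ℚ⟦X⟧)
    (hV : ∀ (x : ℂ) (y : Fin 4 → ℂ), y 0 ≠ 0 → y 0 * y 3 - y 2 * y 1 = 1 → y ∈ Vc h x) (Δ : ℕ) :
    LinearIndependent (Polynomial ℚ) (fun e : Ex Δ => hm h e) := by
  classical
  rw [Fintype.linearIndependent_iff]
  intro G hG e
  let R : MvPolynomial (Fin 4) (Polynomial ℚ) :=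
    ∑ e : Ex Δ, MvPolynomial.C (G e) * ∏ i, MvPolynomial.X i ^ (e.1 i : ℕ)
  have hR : MvPolynomial.aeval h R = 0 := by
    rw [map_sum, ← hG]
    refine Finset.sum_congr rfl fun e _ => ?_
    rw [map_mul, MvPolynomial.aeval_C, map_prod, Algebra.smul_def]
    unfold hm
    congr 1
    refine Finset.prod_congr rfl fun i _ => ?_
    rw [map_pow, MvPolynomial.aeval_X]
  have h1 : ∀ x : ℂ, Polynomial.aeval x (G e) = 0 := by
    intro x
    refine coeff_zero_of (fun e => Polynomial.aeval x (G e)) ?_ e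
    intro y hy0 hy
    have h2 := hV x y hy0 hy R hR
    rw [← MvPolynomial.coe_eval₂Hom, map_sum] at h2
    rw [← h2]
    refine Finset.sum_congr rfl fun e _ => ?_
    rw [map_mul, map_prod, MvPolynomial.coe_eval₂Hom, MvPolynomial.eval₂_C]
    congr 1
    refine Finset.prod_congr rfl fun i _ => ?_
    rw [MvPolynomial.eval₂_pow, MvPolynomial.eval₂_X]
  have h3 : (G e).map (algebraMap ℚ ℂ) = 0 := by
    refine Polynomial.funext fun x => ?_
    rw [Polynomial.eval_map_algebraMap, h1 x, Polynomial.eval_zero]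
  exact (Polynomial.map_eq_zero_iff (algebraMap ℚ ℂ).injective).1 h3

end Pool.Agent.T2h17.MG.Nli

namespace Pool.Agent.T2h17.MG

theorem t_nli : S_NLI := Nli.main

end Pool.Agent.T2h17.MG
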