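import Pool.Agent.T2h17.MG.Stm
import Pool.Agent.R351.GD.J.Nrj
import Pool.Agent.Y547.AF.Cx

/-!
No relations of growing degree between the values for distinct shifts.
-/

set_option autoImplicit false
set_option maxHeartbeats 400000

open PowerSeries Pool.Agent.Y113 Pool.Agent.Y929.K
open Pool.Agent.R351.GD (PB multi_exp gof_exp)
open Pool.Agent.Y916.Al (evc)
open Pool.Agent.Y120.GH (sf)

namespace Pool.Agent.T2h17.MG

lemma mo_mkE {δ : ℕ} (h : Fin 4 → ℚ⟦X⟧) (g : ℕ) (a : Fin 3 → ℕ) (ha : ∑ i, a i ≤ δ) :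
    mo h g (mkE a ha) = ∏ i : Fin 3, sf g (h i.castSucc) ^ a i := by
  unfold mo
  rw [Fin.prod_univ_four, Fin.prod_univ_three]
  have h3 : sf g (h 3) ^ (((mkE a ha).1 3 : Fin (δ + 1)) : ℕ) = 1 := pow_zero _
  rw [h3, mul_one]
  rfl

lemma evc_ev (t : ℝ) (f : ℚ⟦X⟧) : evc (1 / (t : ℂ)) f = ((ev t f : ℝ) : ℂ) := by
  unfold evc ev
  rw [Complex.ofReal_tsum]
  refine tsum_congr fun m => ?_
  push_cast
  ring

theorem t_nrjB : S_NRJ := by
  classical
  intro hred hmon hlis T A h hGF hdet hli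
  obtain ⟨R, hR⟩ := hlis T A h hGF
  refine ⟨R + 1, by omega, fun G hG N => ?_⟩
  have hG1 : 1 ≤ G := by omega
  obtain ⟨q₀, E₀, c, Tg, hsys, hne⟩ := hmon hred T A h hGF hdet G hG1
  -- sizes of the shifted functions
  have hsz : ∀ (g : ℕ) (i : Fin 3) (m : ℕ), |((coeff m (sf (G * g) (h i.castSucc)) : ℚ) : ℝ)| ≤
      (((g : ℝ) + 2) ^ (E₀ * (1 + 1))) ^ (m + 1) := by
    intro g i m
    have h0 : ∑ j : Fin 3, (if j = i then 1 else 0 : ℕ) ≤ 1 := by simp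
    have h1 := (hsys 1 g).size (mkE (fun j => if j = i then 1 else 0) h0) m
    have h2 : mo h (G * g) (mkE (fun j => if j = i then 1 else 0) h0) = sf (G * g) (h i.castSucc) := by
      rw [mo_mkE, Finset.prod_eq_single i]
      · rw [if_pos rfl, pow_one]
      · intro j _ hj
        rw [if_neg hj, pow_zero]
      · intro h
        exact absurd (Finset.mem_univ _) h
    rw [← h2]
    exact h1
  obtain ⟨Ch, hCh⟩ := hGF.hsize
  obtain ⟨B₁, hB₁⟩ := exists_nat_gt |Ch|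
  obtain ⟨q, EF, hEFp, hF⟩ := multi_exp q₀ (fun Δ => E₀ * (Δ + 1)) ((PB.const E₀).mul (PB.id.add (PB.const 1))) N
  obtain ⟨EG, hEGp, hGG⟩ := gof_exp Pool.Agent.Y141.GF.t_shid Pool.Agent.Y141.GF.t_loc q
  obtain ⟨E₁, hE₁⟩ : ∃ E₁ : ℕ, E₁ = E₀ * (1 + 1) := ⟨_, rfl⟩
  rw [← hE₁] at hsz
  refine ⟨fun Δ => (G + c + B₁ + 2) + (E₁ + 2) + (EF Δ + 1) * EG (((Δ + 1) ^ 4) ^ N), ?_,
    fun Δ H t ht g hinj hgH P hP hP0 => ?_⟩
  · have h1 : PB fun Δ : ℕ => ((Δ + 1) ^ 4) ^ N := ((PB.id.add (PB.const 1)).pow 4).pow N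
    exact (PB.const (G + c + B₁ + 2 + (E₁ + 2))).add ((hEFp.add (PB.const 1)).mul (hEGp.comp h1))
  have hF := hF Δ (Pool.Agent.Y113.Ex Δ) (fun g e => mo h (G * g) e) Tg (fun g => hsys Δ g) H g (fun l => (hgH l).2)
  have hGG := hGG (((Δ + 1) ^ 4) ^ N)
  set EF := EF Δ
  set EG := EG (((Δ + 1) ^ 4) ^ N)
  set E := (G + c + B₁ + 2) + (E₁ + 2) + (EF + 1) * EG with hE
  have ht' : (H + 2) ^ E ≤ t := ht
  have hH2 : (1 : ℝ) ≤ (H : ℝ) + 2 := one_le_base H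
  have htR : ((H : ℝ) + 2) ^ E ≤ t := by exact_mod_cast ht'
  have hge : ∀ a ≤ E, ((H : ℝ) + 2) ^ a ≤ t := fun a ha => (base_mono hH2 ha).trans htR
  have ht0' : 0 < t := lt_of_lt_of_le (by positivity) ht'
  have ht0 : (0 : ℝ) < t := by exact_mod_cast ht0'
  have htc : G * H + c + B₁ < t := by
    have h1 : (H + 2) ^ (G + c + B₁ + 2) ≤ t := (Nat.pow_le_pow_right (by omega) (by omega)).trans ht'
    have h2 : (H + 2) ^ (G + c + B₁ + 1) * (H + 2) ≤ t := by rw [← pow_succ]; exact h1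
    have h3 : 2 ^ (G + c + B₁ + 1) ≤ (H + 2) ^ (G + c + B₁ + 1) := Nat.pow_le_pow_left (by omega) _
    have h4 : G + c + B₁ + 1 < 2 ^ (G + c + B₁ + 1) := Nat.lt_two_pow_self
    have h5 : (G + c + B₁ + 1) * (H + 2) ≤ (H + 2) ^ (G + c + B₁ + 1) * (H + 2) :=
      Nat.mul_le_mul_right _ (by omega)
    nlinarith
  have htcR : (G : ℝ) * H + c + B₁ < t := by exact_mod_cast htc
  have hgle : ∀ l, (G : ℝ) * g l ≤ G * H := fun l =>
    mul_le_mul_of_nonneg_left (by exact_mod_cast (hgH l).2) (Nat.cast_nonneg _)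
  -- the values
  have hvJ : ∀ (l : Fin N) (i : Fin 3), evc (1 / ((t : ℂ) - ((G * g l : ℕ) : ℂ))) (h i.castSucc) =
      ((ev (t : ℝ) (sf (G * g l) (h i.castSucc)) : ℝ) : ℂ) := by
    intro l i
    rw [← evc_ev, ← Pool.Agent.Y547.AF.evc_sf (C := |Ch|) (abs_nonneg _) (fun m => (hCh _ m).trans (by
      rw [← abs_pow]
      exact le_abs_self _)) (G * g l) (ξ := (t : ℂ)) (by
      rw [Complex.norm_natCast]
      push_cast
      have := hgle l
      have : (0 : ℝ) ≤ c := Nat.cast_nonneg _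
      linarith)]
    norm_num
  have hcv : ∀ (l : Fin N) (i : Fin 3), Cv (t : ℝ) (sf (G * g l) (h i.castSucc)) := by
    intro l i
    set B : ℝ := ((g l : ℝ) + 2) ^ E₁ with hB
    have hB0 : 0 ≤ B := by positivity
    refine Cv.of_bound (A := B) (B := B) ht0 hB0 ?_ fun m => ?_
    · have hH0 : (0 : ℝ) ≤ H := by positivity
      have h2 : B ≤ ((H : ℝ) + 2) ^ E₁ := by
        refine pow_le_pow_left₀ (by positivity) ?_ _
        have : ((g l : ℕ) : ℝ) ≤ H := by exact_mod_cast (hgH l).2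
        linarith
      have h3 : ((H : ℝ) + 2) ^ E₁ < ((H : ℝ) + 2) ^ (E₁ + 2) := pow_lt_pow_right₀ (by linarith) (by omega)
      have h4 : ((H : ℝ) + 2) ^ (E₁ + 2) ≤ (t : ℝ) := hge _ (by omega)
      linarith
    · exact (hsz (g l) i m).trans (le_of_eq (pow_succ' _ _))
  have h00 : ∑ i : Fin 3, (fun _ : Fin 3 => 0) i ≤ Δ := by simp
  have hone : (fun b : Fin N → Pool.Agent.Y113.Ex Δ => ∏ l, mo h (G * g l) (b l)) (fun _ => mkE (fun _ => 0) h00) = 1 := by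
    refine Finset.prod_eq_one fun l _ => ?_
    rw [mo_mkE]
    simp
  have hEG : (2 * ((H : ℝ) + 2) ^ EF) ^ EG ≤ t := by
    refine (pow_base H _ _).trans (hge _ ?_)
    rw [hE]
    omega
  have hcard : Fintype.card (Fin N → Pool.Agent.Y113.Ex Δ) ≤ ((Δ + 1) ^ 4) ^ N := by
    rw [Fintype.card_fun, Fintype.card_fin]
    exact Nat.pow_le_pow_left (Pool.Agent.R351.GD.card_Ex Δ) N
  have hT0 : Polynomial.aeval (1 / (t : ℝ)) (∏ l, Tg (g l)) ≠ 0 := by
    rw [map_prod]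
    refine Finset.prod_ne_zero_iff.2 fun l _ => hne _ _ ?_
    have := hgle l
    have h3 : (0 : ℝ) ≤ B₁ := Nat.cast_nonneg _
    linarith
  have hLI0 : LinearIndependent (Polynomial ℚ) (fun b : Fin N → Pool.Agent.Y113.Ex Δ => ∏ l, mo h (G * g l) (b l)) := by
    refine hR Δ (hli Δ) N (fun l => G * g l) (fun l => ?_) fun l l' hl => ?_
    · have h1 := (hgH l).1
      have h2 : G * 1 ≤ G * g l := Nat.mul_le_mul_left _ h1
      show R ≤ G * g l
      omega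
    · have h1 : g l ≠ g l' := fun h => hl (hinj h)
      have h2 : (1 : ℝ) ≤ |(g l : ℝ) - g l'| := by
        have h3 : (1 : ℤ) ≤ |(g l : ℤ) - g l'| := Int.one_le_abs (sub_ne_zero.2 (by exact_mod_cast h1))
        exact_mod_cast h3
      show (R : ℝ) ≤ |((G * g l : ℕ) : ℝ) - ((G * g l' : ℕ) : ℝ)|
      push_cast
      rw [← mul_sub, abs_mul, abs_of_nonneg (Nat.cast_nonneg _)]
      have h4 : (R : ℝ) ≤ G := by exact_mod_cast (by omega : R ≤ G)
      have h5 : (0 : ℝ) ≤ G := Nat.cast_nonneg _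
      nlinarith
  have hLI := hGG (Fin N → Pool.Agent.Y113.Ex Δ) (((H : ℝ) + 2) ^ EF) (∏ l, Tg (g l))
    (fun b : Fin N → Pool.Agent.Y113.Ex Δ => ∏ l, mo h (G * g l) (b l)) (fun _ => mkE (fun _ => 0) h00) t hcard hF hone
    hLI0 hEG hT0
  -- the exponents
  have hdeg : ∀ m ∈ P.support, ∑ p, m p ≤ Δ := by
    intro m hm'
    have h1 := (MvPolynomial.le_totalDegree hm').trans hP
    rwa [Finsupp.sum_fintype _ _ (fun _ => rfl)] at h1
  have hdl : ∀ m ∈ P.support, ∀ l : Fin N, ∑ i : Fin 3, m (l, i) ≤ Δ := by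
    intro m hm' l
    refine le_trans ?_ (hdeg m hm')
    rw [Fintype.sum_prod_type]
    exact Finset.single_le_sum (f := fun l => ∑ i : Fin 3, m (l, i)) (fun _ _ => Nat.zero_le _) (Finset.mem_univ l)
  let bs : P.support → Fin N → Pool.Agent.Y113.Ex Δ := fun m l =>
    mkE (fun i => (m : (Fin N × Fin 3) →₀ ℕ) (l, i)) (hdl m m.2 l)
  have hbs : Function.Injective bs := by
    intro m m' h
    apply Subtype.ext
    ext ⟨l, i⟩
    exact congrFun (mkE_inj _ _ (congrFun h l)) i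
  have hLI2 := hLI.comp bs hbs
  -- the values
  have hevp : ∀ b : Fin N → Pool.Agent.Y113.Ex Δ, (∀ l, Cv (t : ℝ) (mo h (G * g l) (b l))) →
      ev (t : ℝ) (∏ l, mo h (G * g l) (b l)) = ∏ l, ev (t : ℝ) (mo h (G * g l) (b l)) := fun b hb =>
    Cv.ev_prod ht0 _ _ fun l _ => hb l
  have hcm : ∀ (m : P.support) (l : Fin N), Cv (t : ℝ) (mo h (G * g l) (bs m l)) := by
    intro m l
    show Cv (t : ℝ) (mo h (G * g l) (mkE (fun i => (m : (Fin N × Fin 3) →₀ ℕ) (l, i)) (hdl m m.2 l)))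
    rw [mo_mkE]
    exact Cv.prod ht0 _ _ fun i _ => (hcv l i).pow ht0 _
  have hval : ∀ m : P.support, ∏ p : Fin N × Fin 3,
      (evc (1 / ((t : ℂ) - ((G * g p.1 : ℕ) : ℂ))) (h p.2.castSucc)) ^ (m : (Fin N × Fin 3) →₀ ℕ) p =
      ((ev (t : ℝ) (∏ l, mo h (G * g l) (bs m l)) : ℝ) : ℂ) := by
    intro m
    rw [hevp _ (hcm m), Fintype.prod_prod_type, Complex.ofReal_prod]
    refine Finset.prod_congr rfl fun l _ => ?_
    show _ = ((ev (t : ℝ) (mo h (G * g l) (mkE (fun i => (m : (Fin N × Fin 3) →₀ ℕ) (l, i)) (hdl m m.2 l))) : ℝ) : ℂ)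
    rw [mo_mkE, Cv.ev_prod ht0 Finset.univ (fun i : Fin 3 => sf (G * g l) (h i.castSucc) ^ (m : (Fin N × Fin 3) →₀ ℕ) (l, i))
      (fun i _ => (hcv l i).pow ht0 _), Complex.ofReal_prod]
    refine Finset.prod_congr rfl fun i _ => ?_
    rw [Cv.ev_pow ht0 (hcv l i), Complex.ofReal_pow]
    show (evc (1 / ((t : ℂ) - ((G * g l : ℕ) : ℂ))) (h i.castSucc)) ^ _ = _
    rw [hvJ l i]
  have hrel : ∑ m : P.support, P.coeff m • ev (t : ℝ) (∏ l, mo h (G * g l) (bs m l)) = 0 := by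
    have h1 : ((∑ m : P.support, P.coeff m • ev (t : ℝ) (∏ l, mo h (G * g l) (bs m l)) : ℝ) : ℂ) = 0 := by
      rw [← hP0, MvPolynomial.aeval_def, MvPolynomial.eval₂_eq', Complex.ofReal_sum, ← Finset.sum_coe_sort P.support]
      refine Finset.sum_congr rfl fun m _ => ?_
      rw [hval m, Rat.smul_def, Complex.ofReal_mul, Complex.ofReal_ratCast, eq_ratCast]
    exact_mod_cast h1
  have h2 := (Fintype.linearIndependent_iff.1 hLI2) (fun m => P.coeff m) hrel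
  by_contra hP1
  obtain ⟨m, hm'⟩ := MvPolynomial.ne_zero_iff.1 hP1
  exact hm' (h2 ⟨m, MvPolynomial.mem_support_iff.2 hm'⟩)

end Pool.Agent.T2h17.MG
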