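import Pool.Agent.T2h17.MG.Stm

/-! # Project MG, task RED: reduction of the monomials by `u x = v w + 1` -/

set_option autoImplicit false

open PowerSeries Filter Topology

namespace Pool.Agent.T2h17.MG

open Pool.Agent.Y113 (Ex)

namespace RED

/-- reduction of the monomials by `u x = v w + 1` -/
theorem reduce (Δ : ℕ) : ∀ a b c d : ℕ, a + b + c + d ≤ Δ → ∃ co : Ex Δ → ℤ, (∀ s, |((co s : ℤ) : ℝ)| ≤ 2 ^ a) ∧
    ∀ u v w x : ℚ⟦X⟧, u * x - v * w = 1 → u ^ a * v ^ b * w ^ c * x ^ d =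
      ∑ s : Ex Δ, (co s : ℚ⟦X⟧) * (u ^ (s.1 0 : ℕ) * v ^ (s.1 1 : ℕ) * w ^ (s.1 2 : ℕ) * x ^ (s.1 3 : ℕ)) := by
  have base_case : ∀ a b c d : ℕ, a + b + c + d ≤ Δ → a = 0 ∨ d = 0 → ∃ co : Ex Δ → ℤ,
      (∀ s, |((co s : ℤ) : ℝ)| ≤ 2 ^ a) ∧
      ∀ u v w x : ℚ⟦X⟧, u * x - v * w = 1 → u ^ a * v ^ b * w ^ c * x ^ d =
      ∑ s : Ex Δ, (co s : ℚ⟦X⟧) * (u ^ (s.1 0 : ℕ) * v ^ (s.1 1 : ℕ) * w ^ (s.1 2 : ℕ) * x ^ (s.1 3 : ℕ)) := by
    intro a b c d h hz
    set s₀ : Ex Δ := ⟨![⟨a, by omega⟩, ⟨b, by omega⟩, ⟨c, by omega⟩, ⟨d, by omega⟩], by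
      refine ⟨?_, ?_⟩
      · rw [Fin.sum_univ_four]; simpa using h
      · rcases hz with rfl | rfl
        · left; ext; simp
        · right; ext; simp⟩ with hs₀
    obtain ⟨co, hc0, hc1⟩ : ∃ co : Ex Δ → ℤ, co s₀ = 1 ∧ ∀ s, s ≠ s₀ → co s = 0 :=
      ⟨fun s => if s = s₀ then 1 else 0, if_pos rfl, fun s hs => if_neg hs⟩
    refine ⟨co, fun s => ?_, fun u v w x _ => ?_⟩
    · have : (1 : ℝ) ≤ 2 ^ a := one_le_pow₀ (by norm_num)
      by_cases hs : s = s₀
      · rw [hs, hc0]; simpa using this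
      · rw [hc1 s hs]; simp
    · rw [Finset.sum_eq_single s₀]
      · rw [hc0]
        simp [hs₀]
      · intro s _ hs
        rw [hc1 s hs]
        simp
      · intro hs
        exact absurd (Finset.mem_univ _) hs
  intro a
  induction a with
  | zero => exact fun b c d h => base_case 0 b c d h (Or.inl rfl)
  | succ a ih =>
    intro b c d h
    rcases Nat.eq_zero_or_pos d with rfl | hd
    · exact base_case _ _ _ _ h (Or.inr rfl)
    · obtain ⟨d, rfl⟩ : ∃ d', d = d' + 1 := ⟨d - 1, by omega⟩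
      obtain ⟨c1, h1, h1'⟩ := ih (b + 1) (c + 1) d (by omega)
      obtain ⟨c2, h2, h2'⟩ := ih b c d (by omega)
      refine ⟨fun s => c1 s + c2 s, fun s => ?_, fun u v w x hux => ?_⟩
      · push_cast
        have := h1 s
        have := h2 s
        calc |((c1 s : ℤ) : ℝ) + c2 s| ≤ |((c1 s : ℤ) : ℝ)| + |((c2 s : ℤ) : ℝ)| := abs_add_le _ _
          _ ≤ 2 ^ a + 2 ^ a := add_le_add (h1 s) (h2 s)
          _ = 2 ^ (a + 1) := by ring
      · have e1 : u ^ (a + 1) * v ^ b * w ^ c * x ^ (d + 1) =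
            u ^ a * v ^ (b + 1) * w ^ (c + 1) * x ^ d + u ^ a * v ^ b * w ^ c * x ^ d := by
          have e2 : u * x = v * w + 1 := by linear_combination hux
          calc u ^ (a + 1) * v ^ b * w ^ c * x ^ (d + 1) = u ^ a * v ^ b * w ^ c * x ^ d * (u * x) := by ring
            _ = _ := by rw [e2]; ring
        rw [e1, h1' u v w x hux, h2' u v w x hux, ← Finset.sum_add_distrib]
        refine Finset.sum_congr rfl fun s _ => ?_
        push_cast
        ring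

end RED

theorem t_red : S_RED := RED.reduce

end Pool.Agent.T2h17.MG
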