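import Pool.Agent.T2h17.MG.Stm
import Pool.Agent.R351.GD.P.AH
import Pool.Agent.Y916.Om.Bas

/-! (WF) windows for free coordinates. -/

set_option autoImplicit false

namespace Pool.Agent.T2h17.MG

open Pool.Agent.Y916 Pool.Agent.R351.GD

theorem t_wf : S_WF := by
  intro val hval υ _ u k q
  classical
  unfold NoRelPB at hval
  choose Ev hEvp hEv using hval
  obtain ⟨T, hTc, hT⟩ := Om.exists_base u
  obtain ⟨A', B', hAB⟩ := Om.Dom.exists u T hT
  obtain ⟨E, hEp, hE⟩ := awh_exp Ev hEvp (σ := Fin 3) k (T.card + q) A' B'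
  refine ⟨E, hEp, fun δ H t ht w => ?_⟩
  set v : υ ⊕ Fin q → ℂ := Sum.elim u w with hv
  set T' : Finset (υ ⊕ Fin q) := T.disjSum (Finset.univ : Finset (Fin q)) with hT'
  have hT'c : T'.card = T.card + q := by
    rw [hT', Finset.card_disjSum]
    simp
  have hdom : Om.Dom A' B' v T' := by
    refine hAB.of v T' ?_ ?_
    · intro j hj
      exact ⟨Sum.inl j, by simp [hT', hj], by simp [hv]⟩
    · rintro (j | j)
      · exact Or.inr ⟨j, by simp [hv]⟩
      · exact Or.inl (by simp [hT'])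
  obtain ⟨S, hS, h⟩ := hE δ ℂ ℕ (fun t => t) val
    (fun N Δ H t ht g hg hgb P hP hP0 => hEv N Δ H t ht g hg hgb P hP hP0)
    H t ht (υ ⊕ Fin q) v T' hT'c hdom
  refine ⟨S, ?_, fun g hg hgS K hK hKd P hP hP0 y => ?_⟩
  · calc (S.card : Cardinal) ≤ ((T.card + q : ℕ) : Cardinal) := by exact_mod_cast hS
      _ = (q : Cardinal) + (T.card : Cardinal) := by push_cast; ring
      _ ≤ _ := by gcongr
  have h1 := h g hg hgS K hK hKd (fun a => val t (g a.1) a.2) (fun p => ⟨1, one_ne_zero, by simp⟩) P hP hP0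
  have h2 := congrArg (MvPolynomial.aeval y : MvPolynomial (Fin k × Fin 3) ℂ →ₐ[ℂ] ℂ) h1
  rw [map_zero] at h2
  rw [← h2]
  have h3 : ((MvPolynomial.aeval y : MvPolynomial (Fin k × Fin 3) ℂ →ₐ[ℂ] ℂ).restrictScalars K).comp
      (MvPolynomial.aeval (Sum.elim (fun j => MvPolynomial.C (v j)) MvPolynomial.X) :
        MvPolynomial ((υ ⊕ Fin q) ⊕ Fin k × Fin 3) K →ₐ[K] MvPolynomial (Fin k × Fin 3) ℂ) =
      MvPolynomial.aeval (Sum.elim v y) := by
    refine MvPolynomial.algHom_ext fun i => ?_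
    rw [AlgHom.comp_apply, MvPolynomial.aeval_X, MvPolynomial.aeval_X, AlgHom.restrictScalars_apply]
    rcases i with j | j
    · rw [Sum.elim_inl, Sum.elim_inl, MvPolynomial.aeval_C]
      rfl
    · rw [Sum.elim_inr, Sum.elim_inr, MvPolynomial.aeval_X]
  rw [← h3, AlgHom.comp_apply, AlgHom.restrictScalars_apply]

end Pool.Agent.T2h17.MG
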