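import Pool.Agent.T2h17.MG.Win
import Pool.Agent.T2h17.MG.Red
import Pool.Agent.T2h17.MG.Det
import Pool.Agent.T2h17.MG.Nli
import Pool.Agent.T2h17.MG.Lis
import Pool.Agent.T2h17.MG.Mon
import Pool.Agent.T2h17.MG.NrjB
import Pool.Agent.T2h17.MG.Wf
import Pool.Agent.T2h17.MJ.All
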