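import Pool.Agent.T2h17.MJ.Win
import Pool.Agent.T2h17.MG.Stm

/-!
Windows of growing degree near a point with rational invariant.
-/

set_option autoImplicit false
set_option maxHeartbeats 1000000

open PowerSeries Module Pool.Agent.Y120.J Pool.Agent.Y120.K Pool.Agent.Y120.A
open Pool.Agent.TH21.MS (jj)
open Pool.Agent.Y916.Af (GFam Vc)
open Pool.Agent.Y916.Al (evc)
open Pool.Agent.Y916
open Pool.Agent.T2h17.MJ
open Pool.Agent.R351.GD (PB)

namespace Pool.Agent.T2h17.MG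

/-- the degree of the relation between the values -/
def d1 (q k δ : ℕ) : ℕ := dd (q + 3) k δ * 2

/-- the degree after the elimination of the fourth coordinate -/
def d2 (q k δ : ℕ) : ℕ := Fintype.card (Fin 8 ⊕ Fin q) * (d1 q k δ * 2) + Fintype.card (Fin k × Fin 4) * (d1 q k δ * 2)

theorem pb_d1 (q k : ℕ) : PB (d1 q k) := by
  unfold d1 dd
  exact (((PB.const _).mul (PB.id.mul (PB.const 15))).add ((PB.const _).mul (PB.id.mul (PB.const 15)))).mul (PB.const 2)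

theorem pb_d2 (q k : ℕ) : PB (d2 q k) := by
  unfold d2
  exact ((PB.const _).mul ((pb_d1 q k).mul (PB.const 2))).add ((PB.const _).mul ((pb_d1 q k).mul (PB.const 2)))

theorem le_d2 (q k δ : ℕ) : δ ≤ d2 q k δ := by
  have h1 : δ ≤ d1 q k δ := by
    unfold d1 dd
    have h2 : 1 ≤ Fintype.card (Option (Fin (q + 3))) := Fintype.card_pos
    have h3 : δ * 15 ≤ Fintype.card (Option (Fin (q + 3))) * (δ * 15) := Nat.le_mul_of_pos_left _ h2
    omega
  have h2 : 1 ≤ Fintype.card (Fin 8 ⊕ Fin q) := by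
    rw [Fintype.card_sum, Fintype.card_fin]
    omega
  have h3 : d1 q k δ * 2 ≤ Fintype.card (Fin 8 ⊕ Fin q) * (d1 q k δ * 2) := Nat.le_mul_of_pos_left _ h2
  unfold d2
  omega

section
variable {q k : ℕ} (K : IntermediateField ℚ ℂ)

/-- the variables with three free coordinates -/
abbrev V3 (q k : ℕ) : Type := (Fin 8 ⊕ Fin q) ⊕ Fin k × Fin 3

/-- the coordinates -/
noncomputable def fx (i : Fin k) (j : Fin 3) : MvPolynomial (V3 q k) K := MvPolynomial.X (Sum.inr (i, j))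

/-- the constants -/
noncomputable def Wf (a : Fin 8 ⊕ Fin q) : MvPolynomial (V3 q k) K := MvPolynomial.X (Sum.inl a)

/-- the numerators -/
noncomputable def Nf (p : Fin k × Fin 4) : MvPolynomial (V3 q k) K :=
  ![fx K p.1 0, fx K p.1 1, fx K p.1 2, fx K p.1 1 * fx K p.1 2 + 1] p.2

/-- the denominators -/
noncomputable def Mf (p : Fin k × Fin 4) : MvPolynomial (V3 q k) K := ![1, 1, 1, fx K p.1 0] p.2

variable {K}

theorem Wf_deg (a : Fin 8 ⊕ Fin q) : (Wf (k := k) K a).totalDegree ≤ 2 := (dX _).trans (by norm_num)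

theorem fx_deg (i : Fin k) (j : Fin 3) : (fx (q := q) K i j).totalDegree ≤ 1 := dX _

theorem one_deg' : (1 : MvPolynomial (V3 q k) K).totalDegree ≤ 2 := by
  rw [MvPolynomial.totalDegree_one]
  norm_num

theorem Nf_deg (p : Fin k × Fin 4) : (Nf (q := q) K p).totalDegree ≤ 2 := by
  obtain ⟨i, j⟩ := p
  fin_cases j
  · exact (fx_deg i 0).trans (by norm_num)
  · exact (fx_deg i 1).trans (by norm_num)
  · exact (fx_deg i 2).trans (by norm_num)
  · exact dadd (dmul (a := 1) (b := 1) (fx_deg _ _) (fx_deg _ _)) one_deg'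

theorem Mf_deg (p : Fin k × Fin 4) : (Mf (q := q) K p).totalDegree ≤ 2 := by
  obtain ⟨i, j⟩ := p
  fin_cases j
  · exact one_deg'
  · exact one_deg'
  · exact one_deg'
  · exact (fx_deg i 0).trans (by norm_num)

/-- the first three coordinates -/
def fst3 (y : Fin k × Fin 4 → ℂ) : Fin k × Fin 3 → ℂ := fun a => y (a.1, a.2.castSucc)

theorem fx_eval (c : Fin 8 ⊕ Fin q → ℂ) (y : Fin k × Fin 3 → ℂ) (i : Fin k) (j : Fin 3) :
    MvPolynomial.aeval (Sum.elim c y) (fx (q := q) K i j) = y (i, j) := by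
  unfold fx
  rw [MvPolynomial.aeval_X]
  rfl

theorem Mf_ne (c : Fin 8 ⊕ Fin q → ℂ) {y : Fin k × Fin 4 → ℂ} (hy : y ∈ Y4 k) (p : Fin k × Fin 4) :
    MvPolynomial.aeval (Sum.elim c (fst3 y)) (Mf (q := q) K p) ≠ 0 := by
  obtain ⟨i, j⟩ := p
  have h1 : MvPolynomial.aeval (Sum.elim c (fst3 y)) (1 : MvPolynomial (V3 q k) K) = 1 := map_one _
  fin_cases j
  · show MvPolynomial.aeval _ (1 : MvPolynomial (V3 q k) K) ≠ 0
    rw [h1]
    exact one_ne_zero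
  · show MvPolynomial.aeval _ (1 : MvPolynomial (V3 q k) K) ≠ 0
    rw [h1]
    exact one_ne_zero
  · show MvPolynomial.aeval _ (1 : MvPolynomial (V3 q k) K) ≠ 0
    rw [h1]
    exact one_ne_zero
  · show MvPolynomial.aeval _ (fx K i 0) ≠ 0
    rw [fx_eval]
    exact (hy i).1

theorem NM_eval (c : Fin 8 ⊕ Fin q → ℂ) {y : Fin k × Fin 4 → ℂ} (hy : y ∈ Y4 k) (p : Fin k × Fin 4) :
    MvPolynomial.aeval (Sum.elim c (fst3 y)) (Nf (q := q) K p) /
      MvPolynomial.aeval (Sum.elim c (fst3 y)) (Mf (q := q) K p) = y p := by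
  obtain ⟨i, j⟩ := p
  have h1 : MvPolynomial.aeval (Sum.elim c (fst3 y)) (1 : MvPolynomial (V3 q k) K) = 1 := map_one _
  have hf : ∀ j : Fin 3, MvPolynomial.aeval (Sum.elim c (fst3 y)) (fx (q := q) K i j) = y (i, j.castSucc) := fun j => by
    rw [fx_eval]
    rfl
  fin_cases j
  · show MvPolynomial.aeval _ (fx K i 0) / MvPolynomial.aeval _ (1 : MvPolynomial (V3 q k) K) = y (i, 0)
    rw [h1, div_one, hf]
    rfl
  · show MvPolynomial.aeval _ (fx K i 1) / MvPolynomial.aeval _ (1 : MvPolynomial (V3 q k) K) = y (i, 1)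
    rw [h1, div_one, hf]
    rfl
  · show MvPolynomial.aeval _ (fx K i 2) / MvPolynomial.aeval _ (1 : MvPolynomial (V3 q k) K) = y (i, 2)
    rw [h1, div_one, hf]
    rfl
  · show MvPolynomial.aeval _ (fx K i 1 * fx K i 2 + 1) / MvPolynomial.aeval _ (fx K i 0) = y (i, 3)
    have h2 := (hy i).1
    have h3 := (hy i).2
    rw [map_add, map_mul, h1, hf, hf, hf]
    show (y (i, 1) * y (i, 2) + 1) / y (i, 0) = y (i, 3)
    rw [div_eq_iff h2]
    have h4 : y (i, 0) * y (i, 3) - y (i, 2) * y (i, 1) = 1 := h3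
    linear_combination (-1 : ℂ) * h4

/-- the relation in the free coordinates -/
theorem free_rel {D : ℕ} {Q : MvPolynomial (VQ q k) K} (hQ : Q.totalDegree ≤ D) (c : Fin 8 ⊕ Fin q → ℂ)
    {y : Fin k × Fin 4 → ℂ} (hy : y ∈ Y4 k) :
    MvPolynomial.aeval (Sum.elim c (fst3 y)) (clr D (Wf K) (Nf K) (Mf K) Q) = 0 ↔
      MvPolynomial.aeval (Sum.elim c y) Q = 0 := by
  rw [clr_eval hQ _ fun b => Mf_ne c hy b]
  have h1 : (fun b => MvPolynomial.aeval (Sum.elim c (fst3 y)) (Nf (q := q) K b) /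
      MvPolynomial.aeval (Sum.elim c (fst3 y)) (Mf (q := q) K b)) = y := by
    funext b
    exact NM_eval c hy b
  have h2 : (fun a => MvPolynomial.aeval (Sum.elim c (fst3 y)) (Wf (q := q) (k := k) K a)) = c := by
    funext a
    unfold Wf
    rw [MvPolynomial.aeval_X]
    rfl
  rw [h1, h2]
  constructor
  · intro h
    exact (mul_eq_zero.1 h).resolve_left (Finset.prod_ne_zero_iff.2 fun b _ => pow_ne_zero _ (Mf_ne c hy b))
  · intro h
    rw [h, mul_zero]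

end

/-- **windows of growing degree near a point with rational invariant** -/
theorem win (hred : S_RED) (hdet : S_DET) (hnli : S_NLI) (hlis : S_LIS) (hmon : S_MON) (hnrj : S_NRJ) (hwf : S_WF)
    (hgal : S_GAL) (hsh : S_SHIFT) (hloc : S_LOC) (hvc : S_VC) {z₀ : ℂ} {x₀ : ℚ} (hz₀ : 0 < z₀.im)
    (h0 : jj z₀ ≠ 0) (h1728 : jj z₀ ≠ 1728) (hx : 1 / jj z₀ = x₀) {τ : ℕ}
    (hτ : Algebra.trdeg ℚ (IntermediateField.adjoin ℚ (insert tpi (Set.range (jt z₀)))) ≤ τ) :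
    ∃ (ρ : ℝ) (G0 : ℕ), 0 < ρ ∧ ∀ G : ℕ, G0 ≤ G → ∀ q k : ℕ, ∃ E : ℕ → ℕ, PB E ∧
    ∀ (δ H t : ℕ), (H + 2) ^ E δ ≤ t →
    (∀ u : ℕ, 1 ≤ u → u ≤ H → ∃ v : ℂ, ‖v - z₀‖ < ρ ∧ 0 < v.im ∧ 1 / jj v = x₀ + 1 / ((t : ℂ) - ((G * u : ℕ) : ℂ))) ∧
    ∀ w : Fin q → ℂ, ∃ S : Finset ℕ, S.card ≤ τ + q ∧
    ∀ u : Fin k → ℕ, Function.Injective u → (∀ j, 1 ≤ u j ∧ u j ≤ H ∧ u j ∉ S) →
    ∀ (v : Fin k → UpperHalfPlane) (γ : Fin k → Matrix.SpecialLinearGroup (Fin 2) ℤ),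
    (∀ j, ‖(v j : ℂ) - z₀‖ < ρ ∧ 1 / jj (v j) = x₀ + 1 / ((t : ℂ) - ((G * u j : ℕ) : ℂ))) →
    ∀ L : IntermediateField ℚ ℂ, FiniteDimensional ℚ L → finrank ℚ L ≤ δ →
    ∀ P : MvPolynomial ((Option (Fin q) ⊕ Fin 3) ⊕ Fin k × Fin 3) L, P.totalDegree ≤ δ →
    MvPolynomial.aeval (Sum.elim (Sum.elim (wo w) (jt z₀)) fun a : Fin k × Fin 3 => jt ((γ a.1 • v a.1 : UpperHalfPlane) : ℂ) a.2) P
      = 0 →
    ∀ y, MvPolynomial.aeval (Sum.elim (Sum.elim (wo w) (jt z₀)) y) P = 0 := by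
  classical
  -- the fundamental matrix
  have hx₀ : (x₀ : ℂ) ≠ 0 := by
    rw [← hx]
    exact one_div_ne_zero h0
  have hTJ : Polynomial.aeval x₀ TJ ≠ 0 := by
    unfold TJ
    rw [map_mul, Polynomial.aeval_X]
    refine mul_ne_zero (by exact_mod_cast hx₀) ?_
    intro h1
    have h2 : (1 : ℚ) - 1728 * x₀ = 0 := by
      have h3 : Polynomial.aeval x₀ T1 = (1 - 1728 * x₀) ^ 2 := by
        have h5 : Polynomial.aeval x₀ (1728 : Polynomial ℤ) = 1728 := map_ofNat _ 1728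
        simp [T1, h5]
      rw [h3] at h1
      exact pow_eq_zero_iff (two_ne_zero) |>.1 h1
    apply h1728
    have h4 : (1 : ℂ) - 1728 * (1 / jj z₀) = 0 := by
      rw [hx]
      exact_mod_cast h2
    field_simp at h4
    linear_combination h4
  obtain ⟨h, T', A', hGF, hF⟩ := hsh TJ AJ hgal x₀ hTJ
  obtain ⟨C, hC, hCalg, ρ₁, hρ₁, hlocz⟩ := hloc z₀ x₀ h hz₀ h0 h1728 hx hF
  obtain ⟨ρ₂, hρ₂, hne⟩ := ev_ne hF.c0 (by
    obtain ⟨B, hB⟩ := hF.size
    exact ⟨B, fun m => hB 0 m⟩)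
  have hd0 : deriv jj z₀ ≠ 0 := (hlocz z₀ (by rw [sub_self, norm_zero]; exact hρ₁)).2.2.1
  obtain ⟨r, hr, hex⟩ := exists_near hz₀ h0 hd0 hρ₁
  have hdt := hdet x₀ h hF
  have hN := hnli h (hvc z₀ x₀ h hz₀ h0 h1728 hx hF)
  obtain ⟨G0, hG0, hW⟩ := hnrj hred hmon hlis T' A' h hGF hdt hN
  refine ⟨ρ₁, G0, hρ₁, fun G hGG q k => ?_⟩
  obtain ⟨E₂, hE₂p, hE₂⟩ := hwf _ (hW G hGG) (Fin 8) (Om C (jt z₀)) k q
  obtain ⟨B, hB⟩ := exists_nat_gt (max (1 / r) (1 / ρ₂))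
  refine ⟨fun δ => E₂ (d2 q k δ) + (G + B + 2), (hE₂p.comp (pb_d2 q k)).add (PB.const _), fun δ H t hHt => ?_⟩
  have hHt : (H + 2) ^ (E₂ (d2 q k δ) + (G + B + 2)) ≤ t := hHt
  set E := E₂ (d2 q k δ) with hE
  have hξ : ((H : ℝ) + 2) ^ (E + G + B + 2) ≤ (t : ℝ) := by
    have h1 : E + G + B + 2 = E + (G + B + 2) := by ring
    rw [h1]
    exact_mod_cast hHt
  have hH2 : (2 : ℝ) ≤ (H : ℝ) + 2 := by linarith [(Nat.cast_nonneg H : (0 : ℝ) ≤ H)]
  have hH1 : (1 : ℝ) ≤ (H : ℝ) + 2 := by linarith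
  have h2n : ∀ n : ℕ, (n : ℝ) ≤ ((H : ℝ) + 2) ^ n := fun n => by
    refine le_trans ?_ (pow_le_pow_left₀ (by norm_num) hH2 n)
    exact_mod_cast (Nat.lt_two_pow_self (n := n)).le
  have hbig : (G : ℝ) * (H + 2) + B ≤ t := by
    refine le_trans ?_ ((pow_le_pow_right₀ hH1 (by omega : G + 1 + B + 1 ≤ E + G + B + 2)).trans hξ)
    have h3 : (1 : ℝ) ≤ ((H : ℝ) + 2) ^ (G + 1) := one_le_pow₀ hH1
    have h4 : (1 : ℝ) ≤ ((H : ℝ) + 2) ^ B := one_le_pow₀ hH1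
    have h5 : (G : ℝ) * (H + 2) ≤ ((H : ℝ) + 2) ^ (G + 1) := by
      rw [pow_succ]
      exact mul_le_mul_of_nonneg_right (h2n G) (by linarith)
    have h6 : (B : ℝ) ≤ ((H : ℝ) + 2) ^ B := h2n B
    calc (G : ℝ) * (H + 2) + B ≤ ((H : ℝ) + 2) ^ (G + 1) + ((H : ℝ) + 2) ^ B := add_le_add h5 h6
      _ ≤ ((H : ℝ) + 2) ^ (G + 1) * ((H : ℝ) + 2) ^ B * 2 := by nlinarith
      _ ≤ ((H : ℝ) + 2) ^ (G + 1) * ((H : ℝ) + 2) ^ B * ((H : ℝ) + 2) :=
          mul_le_mul_of_nonneg_left hH2 (by positivity)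
      _ = _ := by rw [← pow_add, ← pow_succ]
  have hαB : ∀ u : ℕ, u ≤ H → (B : ℝ) < ‖(t : ℂ) - ((G * u : ℕ) : ℂ)‖ := by
    intro u hu
    have h5 := norm_sub_norm_le (t : ℂ) ((G * u : ℕ) : ℂ)
    rw [Complex.norm_natCast, Complex.norm_natCast] at h5
    have hGR : (1 : ℝ) ≤ G := by exact_mod_cast hG0.trans hGG
    have h6 : ((G * u : ℕ) : ℝ) ≤ G * H := by
      push_cast
      exact mul_le_mul_of_nonneg_left (by exact_mod_cast hu) (by linarith)
    nlinarith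
  have hsmall : ∀ u : ℕ, u ≤ H → ‖1 / ((t : ℂ) - ((G * u : ℕ) : ℂ))‖ < r ∧ ‖1 / ((t : ℂ) - ((G * u : ℕ) : ℂ))‖ < ρ₂ := by
    intro u hu
    have h5 := hαB u hu
    have hr1 : 1 / r < ‖(t : ℂ) - ((G * u : ℕ) : ℂ)‖ := ((le_max_left _ _).trans_lt hB).trans h5
    have hr2 : 1 / ρ₂ < ‖(t : ℂ) - ((G * u : ℕ) : ℂ)‖ := ((le_max_right _ _).trans_lt hB).trans h5
    have hpos : 0 < ‖(t : ℂ) - ((G * u : ℕ) : ℂ)‖ := lt_of_le_of_lt (Nat.cast_nonneg B) h5
    rw [norm_div, norm_one]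
    constructor
    · rw [div_lt_iff₀ hpos]
      rw [div_lt_iff₀ hr] at hr1
      linarith
    · rw [div_lt_iff₀ hpos]
      rw [div_lt_iff₀ hρ₂] at hr2
      linarith
  refine ⟨fun u _ hu => ?_, fun w => ?_⟩
  · obtain ⟨v, hv, hvx⟩ := hex (x₀ + 1 / ((t : ℂ) - ((G * u : ℕ) : ℂ))) (by
      rw [hx, add_sub_cancel_left]
      exact (hsmall u hu).1)
    exact ⟨v, hv, (hlocz v hv).1, hvx⟩
  obtain ⟨S, hS, hwin⟩ := hE₂ (d2 q k δ) H t ((Nat.pow_le_pow_right (by omega) (by omega)).trans hHt) w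
  refine ⟨S, ?_, ?_⟩
  · have h1 : (S.card : Cardinal) ≤ ((τ + q : ℕ) : Cardinal) := by
      refine hS.trans ?_
      rw [Nat.cast_add, add_comm]
      refine add_le_add (le_trans (trdeg_le_alg ?_ ?_) hτ) le_rfl
      · exact (Set.finite_range _).insert _
      · have hmem : ∀ x ∈ (insert tpi (Set.range (jt z₀)) : Set ℂ),
            IsAlgebraic (Algebra.adjoin ℚ (insert tpi (Set.range (jt z₀)) : Set ℂ)) x := fun x hx' =>
          isAlgebraic_algebraMap (⟨x, Algebra.subset_adjoin hx'⟩ :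
            Algebra.adjoin ℚ (insert tpi (Set.range (jt z₀)) : Set ℂ))
        have hset : ({tp, z₀, deriv jj z₀, deriv (deriv jj) z₀} : Set ℂ) = insert tpi (Set.range (jt z₀)) := by
          have h2 : Set.range (jt z₀) = {z₀, deriv jj z₀, deriv (deriv jj) z₀} := by
            unfold jt
            rw [Matrix.range_cons, Matrix.range_cons, Matrix.range_cons, Matrix.range_empty, Set.union_empty]
            rfl
          rw [h2]
          rfl
        rw [hset] at hCalg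
        rintro x ⟨i, rfl⟩
        fin_cases i
        · exact hmem _ (Set.mem_insert _ _)
        · exact hCalg 0 0
        · exact hCalg 0 1
        · exact hCalg 1 0
        · exact hCalg 1 1
        · exact hmem _ (Set.mem_insert_of_mem _ ⟨0, rfl⟩)
        · exact hmem _ (Set.mem_insert_of_mem _ ⟨1, rfl⟩)
        · exact hmem _ (Set.mem_insert_of_mem _ ⟨2, rfl⟩)
    exact_mod_cast h1
  intro u hu hub v γ hvz L hLf hLd P hPd hP0 y
  by_contra hy
  -- the values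
  set x : Fin k → ℂ := fun j => 1 / ((t : ℂ) - ((G * u j : ℕ) : ℂ)) with hxdef
  have htt : ∀ j, 1 / jj (v j) - x₀ = x j := fun j => by
    rw [(hvz j).2, add_sub_cancel_left]
  set y₀ : Fin k × Fin 4 → ℂ := fun a => evc (x a.1) (h a.2) with hy₀
  have hyv : ∀ j l, y₀ (j, l) = evc (x j) (h l) := fun j l => rfl
  have hpm : ∀ j, pm h C (x j) = ym C fun l => y₀ (j, l) := fun j => rfl
  have hl := fun j => hlocz (v j) (hvz j).1
  simp only [htt, hpm] at hl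
  have hY₀ : y₀ ∈ Y4 k := by
    intro j
    refine ⟨hne (x j) (hsmall (u j) (hub j).2.1).2, ?_⟩
    have h1 := (hl j).2.2.2.2.2.2.2
    unfold ym at h1
    rw [Matrix.det_mul, hC, mul_one, Matrix.det_fin_two] at h1
    show y₀ (j, 0) * y₀ (j, 3) - y₀ (j, 2) * y₀ (j, 1) = 1
    rw [mul_comm (y₀ (j, 2))]
    exact h1
  have hαK : ∀ j, jj (v j) ∈ L := by
    intro j
    have h1 : jj (v j) = 1 / (x₀ + 1 / ((t : ℂ) - ((G * u j : ℕ) : ℂ))) := by
      rw [← (hvz j).2, one_div_one_div]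
    rw [h1]
    refine div_mem (one_mem L) (add_mem ?_ (div_mem (one_mem L) (sub_mem (natCast_mem L _) (natCast_mem L _))))
    exact L.algebraMap_mem x₀
  -- the relation
  let e : Option (Fin q) ⊕ Fin 3 → Option (Fin (q + 3)) := Sum.elim (fun o => o.map (Fin.castAdd 3)) fun j => some (Fin.natAdd q j)
  have he : ∀ y : Fin k × Fin 3 → ℂ, MvPolynomial.aeval (Sum.elim (wo (Fin.append w (jt z₀))) y)
      (MvPolynomial.rename (Sum.map e id) P) = MvPolynomial.aeval (Sum.elim (Sum.elim (wo w) (jt z₀)) y) P := by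
    intro y
    rw [MvPolynomial.aeval_rename]
    congr 2
    funext x
    rcases x with (o | j) | x
    · rcases o with _ | o
      · rfl
      · show Fin.append w (jt z₀) (Fin.castAdd 3 o) = w o
        rw [Fin.append_left]
    · show Fin.append w (jt z₀) (Fin.natAdd q j) = jt z₀ j
      rw [Fin.append_right]
    · rfl
  obtain ⟨Q, hQd, hQ0, hQ1⟩ := rel (δ := δ) w (jt z₀) hC (α := fun j => jj (v j)) (fun j => (hl j).2.1) (v := v) (y₀ := y₀)
    (fun j => (hl j).2.2.2.1) (fun j => (hl j).2.2.2.2.1) (fun j => (hl j).2.2.2.2.2.1)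
    (fun j => (hl j).2.2.2.2.2.2.1) γ (fun j => rfl) L hαK (MvPolynomial.rename (Sum.map e id) P)
    ((MvPolynomial.totalDegree_rename_le _ _).trans hPd)
  obtain ⟨y₁, hy₁, hQy⟩ := hQ1 ⟨y, by rwa [he]⟩
  apply hQy
  have hQd' : Q.totalDegree ≤ d1 q k δ := hQd
  rw [← free_rel hQd' _ hy₁]
  refine hwin u hu hub L hLf (hLd.trans (le_d2 q k δ)) _
    (clr_deg hQd' (fun a => Wf_deg a) (fun b => Nf_deg b) fun b => Mf_deg b) ?_ _
  have h5 : (fun a : Fin k × Fin 3 => evc (1 / ((t : ℂ) - ((G * u a.1 : ℕ) : ℂ))) (h a.2.castSucc)) = fst3 y₀ := rfl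
  rw [h5, free_rel hQd' _ hY₀]
  exact hQ0 (by rw [he]; exact hP0)

end Pool.Agent.T2h17.MG
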